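import Pool.Agent.H13.Shift
set_option autoImplicit false
open Ordinal Pool.Agent.H13.Shift

namespace Pool.Agent.Results.MP_c20855_lc.NoEpsilonZero

lemma drop (b : ℕ → Fin 2) {x : ℝ} (hx : x ∈ A b) (h : 1 / 2 < x) : 2 * x - 1 ∈ A b := by
  obtain ⟨i, rfl⟩ := hx
  refine ⟨i + 1, ?_⟩
  have h1 := a_rec b i
  have h2 := a_le b (i + 1)
  have h3 := (b i).2
  rcases (by omega : (b i : ℕ) = 0 ∨ (b i : ℕ) = 1) with h4 | h4 <;> rw [h4] at h1 <;>
    push_cast at h1 <;> linarith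

theorem result (b : ℕ → Fin 2) [IsWellOrder (A b) (· < ·)] (l : Ordinal.{0})
    (hl : Order.IsSuccLimit l) : Ordinal.type (α := A b) (· < ·) ≠ ω ^ l := by
  intro hα
  set ρ : A b → Ordinal.{0} := fun x => typein (α := A b) (· < ·) x with hρ
  have hlt : ∀ x y : A b, ρ x < ρ y ↔ x < y := fun x y => typein_lt_typein (· < ·)
  have hsurj : ∀ o < ω ^ l, ∃ x, ρ x = o := fun o ho =>
    typein_surj (α := A b) (· < ·) (hα ▸ ho)
  have hbd : ∀ x, ρ x < ω ^ l := fun x => hα ▸ typein_lt_type (α := A b) (· < ·) x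
  have hlim : Order.IsSuccLimit (ω ^ l) := isSuccLimit_opow_left isSuccLimit_omega0 hl.ne_bot
  have hnomax : ∀ x : A b, ∃ y, x < y := fun x => by
    obtain ⟨y, hy⟩ := hsurj _ (hlim.succ_lt (hbd x))
    exact ⟨y, (hlt x y).mp (hy ▸ Order.lt_succ _)⟩
  obtain ⟨y, hy⟩ : ∃ y : A b, 1 / 2 < y.1 := by
    by_cases h : ∃ i, (b i : ℕ) = 1
    · obtain ⟨i, hi⟩ := h
      obtain ⟨y, hy⟩ := hnomax ⟨a b i, i, rfl⟩
      refine ⟨y, lt_of_le_of_lt ?_ hy⟩
      have h1 := a_rec b i
      have h2 := a_nonneg b (i + 1)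
      rw [hi] at h1; push_cast at h1
      show 1 / 2 ≤ a b i
      linarith
    · exfalso
      have h0 : ∀ i, a b i = 0 := fun i => by
        have : ∀ n, (b n : ℕ) = 0 := fun n => by
          have h3 := (b n).2
          have h4 : (b n : ℕ) ≠ 1 := fun e => h ⟨n, e⟩
          omega
        simp [a, this]
      obtain ⟨⟨_, i, rfl⟩, hy⟩ := hnomax ⟨a b 0, 0, rfl⟩
      have : a b 0 < a b i := hy
      rw [h0, h0] at this
      exact lt_irrefl _ this
  have hsmall : ∀ x : A b, x.1 ≤ 1 / 2 → ρ x < ρ y := fun x hx =>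
    (hlt x y).mpr (show x.1 < y.1 from lt_of_le_of_lt hx hy)
  have hstep : ∀ x : A b, ∀ h : 1 / 2 < x.1, ρ x ≤ ρ y + ρ ⟨_, drop b x.2 h⟩ := by
    intro x
    induction x using (IsWellFounded.wf (r := (· < · : A b → A b → Prop))).induction with
    | h x ih =>
      intro h
      apply le_of_forall_lt
      intro o ho
      obtain ⟨z, rfl⟩ := hsurj o (ho.trans (hbd x))
      have hzx := (hlt z x).mp ho
      by_cases hz : 1 / 2 < z.1
      · refine (ih z hzx hz).trans_lt ?_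
        rw [add_lt_add_iff_left, hlt]
        have : z.1 < x.1 := hzx
        show 2 * z.1 - 1 < 2 * x.1 - 1
        linarith
      · exact (hsmall z (not_lt.mp hz)).trans_le le_self_add
  have hj : ∀ j : ℕ, ∀ x : A b, x.1 ≤ 1 - (1 / 2) ^ (j + 1) → ρ x < ρ y * ((j + 1 : ℕ) : Ordinal) := by
    intro j
    induction j with
    | zero => intro x hx; simpa using hsmall x (by linarith)
    | succ j ih =>
      intro x hx
      have e : ρ y * ((j + 1 + 1 : ℕ) : Ordinal) = ρ y + ρ y * ((j + 1 : ℕ) : Ordinal) := by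
        rw [add_comm (j + 1) 1, Nat.cast_add, mul_add, Nat.cast_one, mul_one]
      rw [e]
      by_cases h : 1 / 2 < x.1
      · refine (hstep x h).trans_lt ?_
        rw [add_lt_add_iff_left]
        apply ih
        rw [pow_succ] at hx
        show 2 * x.1 - 1 ≤ _
        linarith
      · exact (hsmall x (not_lt.mp h)).trans_le le_self_add
  have hall : ∀ x : A b, ρ x < ρ y * ω := fun x => by
    obtain ⟨⟨_, i, rfl⟩, hz⟩ := hnomax x
    have h1 : x.1 < 1 := lt_of_lt_of_le hz (a_le b i)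
    obtain ⟨j, hjj⟩ := exists_pow_lt_of_lt_one (sub_pos.mpr h1) (by norm_num : (1 / 2 : ℝ) < 1)
    refine (hj j x ?_).trans_le (mul_le_mul_right (natCast_lt_omega0 _).le _)
    have : (0 : ℝ) < (1 / 2) ^ j := by positivity
    rw [pow_succ]; linarith
  obtain ⟨d, hd, hyd⟩ := (lt_opow_of_isSuccLimit omega0_ne_zero hl).mp (hbd y)
  have h1 : ρ y * ω < ω ^ l := by
    calc ρ y * ω ≤ ω ^ d * ω := mul_le_mul_left hyd.le _
      _ = ω ^ Order.succ d := (opow_succ _ _).symm
      _ < ω ^ l := (opow_lt_opow_iff_right one_lt_omega0).mpr (hl.succ_lt hd)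
  obtain ⟨x, hx⟩ := hsurj _ h1
  exact lt_irrefl _ (hx ▸ hall x)

end Pool.Agent.Results.MP_c20855_lc.NoEpsilonZero
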