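import Pool.Agent.H13.Shift
set_option autoImplicit false
open Ordinal Pool.Agent.H13.Shift

namespace Pool.Agent.Results.MP_c20855_lc.Unbounded

noncomputable def ph (m : ℕ) (x : ℝ) : ℝ := 1 - (1 - x / 2) / 2 ^ m

lemma ph_zero (x : ℝ) : ph 0 x = x / 2 := by simp [ph]

lemma ph_succ (m : ℕ) (x : ℝ) : ph (m + 1) x = 1 / 2 + ph m x / 2 := by
  unfold ph; rw [pow_succ]; field_simp; ring

lemma ph_mono (m : ℕ) : StrictMono (ph m) := fun x y h => by
  unfold ph
  have : (1 - y / 2) / 2 ^ m < (1 - x / 2) / 2 ^ m :=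
    div_lt_div_of_pos_right (by linarith) (by positivity)
  linarith

lemma ph_lt_one (m : ℕ) {x : ℝ} (h : x ≤ 1) : ph m x < 1 := by
  unfold ph
  have : 0 < (1 - x / 2) / 2 ^ m := div_pos (by linarith) (by positivity)
  linarith

lemma ph_le {m n : ℕ} (h : m < n) {y : ℝ} (hy : 0 ≤ y) : ph m 1 ≤ ph n y := by
  unfold ph
  have h1 : (2 : ℝ) ^ (m + 1) ≤ 2 ^ n := pow_le_pow_right₀ (by norm_num) h
  have h2 : (1 - y / 2) / 2 ^ n ≤ 1 / 2 ^ n :=
    div_le_div_of_nonneg_right (by linarith) (by positivity)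
  have h3 : (1 : ℝ) / 2 ^ n ≤ 1 / 2 ^ (m + 1) := one_div_le_one_div_of_le (by positivity) h1
  have h4 : (1 - 1 / 2 : ℝ) / 2 ^ m = 1 / 2 ^ (m + 1) := by rw [pow_succ]; field_simp; ring
  linarith

lemma wf_union (E : ℕ → Set ℝ) (h01 : ∀ m, ∀ x ∈ E m, 0 ≤ x ∧ x ≤ 1) (h : ∀ m, (E m).IsWF) :
    (⋃ m, ph m '' E m).IsWF := by
  rw [Set.isWF_iff_no_descending_seq]
  intro f hf hm
  obtain ⟨M, x, hx, hfx⟩ : ∃ M, ∃ x ∈ E M, ph M x = f 0 := by simpa using hm 0
  have hw : (⋃ m ∈ Finset.range (M + 2), ph m '' E m).IsWF := by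
    rw [Finset.isWF_bUnion]
    intro m _
    exact ((Set.isPWO_iff_isWF.mpr (h m)).image_of_monotone (ph_mono m).monotone).isWF
  rw [Set.isWF_iff_no_descending_seq] at hw
  refine hw f hf (fun n => ?_)
  obtain ⟨m, y, hy, hfy⟩ : ∃ m, ∃ y ∈ E m, ph m y = f n := by simpa using hm n
  simp only [Set.mem_iUnion]
  refine ⟨m, ?_, y, hy, hfy⟩
  rw [Finset.mem_range]
  by_contra hc
  have h1 : f n ≤ f 0 := hf.antitone (Nat.zero_le n)
  have h2 := ph_le (show M + 1 < m by omega) (h01 m y hy).1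
  have h3 := ph_le (show M < M + 1 by omega) (le_refl (0 : ℝ))
  have h4 := (ph_mono M).monotone (h01 M x hx).2
  have h5 := ph_mono (M + 1) (zero_lt_one (α := ℝ))
  linarith

section
variable {X : Type} [LinearOrder X] [Encodable X]

def tt (i : ℕ) : List X :=
  match (Encodable.decode (Nat.unpair i).1 : Option (List X)) with
  | some l => if l.Pairwise (· > ·) then l else []
  | none => []

lemma tt_dec (i : ℕ) : (tt i : List X).Pairwise (· > ·) := by
  unfold tt
  split
  · split_ifs with h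
    · exact h
    · simp
  · simp

lemma tt_surj (l : List X) (h : l.Pairwise (· > ·)) (n : ℕ) : ∃ i, n ≤ i ∧ tt i = l :=
  ⟨Nat.pair (Encodable.encode l) n, Nat.right_le_pair _ _, by simp [tt, h]⟩

def fresh : List X × ℕ → ℕ × List X × ℕ
  | ([], i) => (i, tt i, i + 1)
  | (k :: u, i) => (Encodable.encode k, u, i)

def step : ℕ × List X × ℕ → ℕ × List X × ℕ
  | (0, p) => fresh p
  | (j + 1, p) => (j, p)

def out : ℕ × List X × ℕ → Fin 2
  | (0, _) => 0
  | (_ + 1, _) => 1

def sq (s : ℕ × List X × ℕ) : ℕ → Fin 2 := fun n => out (step^[n] s)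

noncomputable def val (s : ℕ × List X × ℕ) : ℝ := a (sq s) 0

lemma a_sq (s : ℕ × List X × ℕ) (i : ℕ) : a (sq s) i = val (step^[i] s) := by
  simp [val, a, sq, Function.iterate_add_apply]

lemma val_rec (s : ℕ × List X × ℕ) : val s = ((out s : ℕ) : ℝ) / 2 + val (step s) / 2 := by
  have := a_rec (sq s) 0
  rw [a_sq s (0 + 1)] at this
  exact this

lemma val_run (j : ℕ) (p : List X × ℕ) : val (j, p) = ph j (val (fresh p)) := by
  induction j with
  | zero => rw [val_rec, ph_zero]; simp [out, step]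
  | succ j ih => rw [val_rec, ph_succ, ← ih]; simp [out, step]

lemma val01 (s : ℕ × List X × ℕ) : 0 ≤ val s ∧ val s ≤ 1 := ⟨a_nonneg _ _, a_le _ _⟩

def Sv (p : X → Prop) : Set ℝ :=
  {r | ∃ u : List X, ∃ i, u.Pairwise (· > ·) ∧ (∀ y ∈ u, p y) ∧ r = val (fresh (u, i))}

lemma Sv_step (p : X → Prop) (h : ∀ x, p x → (Sv (· < x)).IsWF) : (Sv p).IsWF := by
  refine (wf_union (fun m => insert (val (fresh ((tt m : List X), m + 1)))
    {r | ∃ x, p x ∧ Encodable.encode x = m ∧ r ∈ Sv (· < x)}) ?_ ?_).mono ?_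
  · rintro m _ (rfl | ⟨x, _, _, u, i, _, _, rfl⟩) <;> exact val01 _
  · intro m
    apply Set.IsWF.insert
    by_cases hx : ∃ x, p x ∧ Encodable.encode x = m
    · obtain ⟨x, hp, hx⟩ := hx
      refine (h x hp).mono ?_
      rintro r ⟨y, _, hy, hr⟩
      rwa [Encodable.encode_injective (hy.trans hx.symm)] at hr
    · refine Set.isWF_empty.mono ?_
      rintro r ⟨y, hp, hy, _⟩
      exact hx ⟨y, hp, hy⟩
  · rintro _ ⟨u, i, hu, hp, rfl⟩
    rw [Set.mem_iUnion]
    match u, hu, hp with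
    | [], _, _ => exact ⟨i, _, Or.inl rfl, (val_run _ _).symm⟩
    | k :: u, hu, hp =>
      rw [List.pairwise_cons] at hu
      exact ⟨Encodable.encode k, _, Or.inr ⟨k, hp k (by simp), rfl, u, i, hu.2, hu.1, rfl⟩,
        (val_run _ _).symm⟩

lemma Sv_wf [WellFoundedLT X] (p : X → Prop) : (Sv p).IsWF := by
  apply Sv_step
  intro x h
  clear h
  induction x using WellFoundedLT.induction with
  | ind x ih => exact Sv_step _ ih

def s0 (X : Type) : ℕ × List X × ℕ := (0, [], 0)

def Reach (s : ℕ × List X × ℕ) : Prop := ∃ n, step^[n] (s0 X) = s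

lemma reach_dec {s : ℕ × List X × ℕ} (h : Reach s) : s.2.1.Pairwise (· > ·) := by
  obtain ⟨n, rfl⟩ := h
  induction n with
  | zero => simp [s0]
  | succ n ih =>
    rw [Function.iterate_succ_apply']
    generalize step^[n] (s0 X) = s at ih
    match s, ih with
    | (0, [], i), _ => exact tt_dec i
    | (0, k :: u, i), ih => exact (List.pairwise_cons.mp ih).2
    | (j + 1, p), ih => exact ih

lemma reach_step {s : ℕ × List X × ℕ} (h : Reach s) : Reach (step s) := by
  obtain ⟨n, rfl⟩ := h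
  exact ⟨n + 1, Function.iterate_succ_apply' _ _ _⟩

lemma reach_fresh (j : ℕ) (p : List X × ℕ) (h : Reach (j, p)) : Reach (fresh p) := by
  induction j with
  | zero => exact reach_step h
  | succ j ih => exact ih (reach_step h)

lemma reach_nil (u : List X) (i : ℕ) (h : Reach (fresh (u, i))) :
    Reach (fresh (([] : List X), i)) := by
  induction u with
  | nil => exact h
  | cons k u ih => exact ih (reach_fresh _ _ h)

lemma reach_all (i : ℕ) : Reach (fresh (([] : List X), i)) := by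
  induction i with
  | zero => exact reach_fresh 0 _ ⟨0, rfl⟩
  | succ i ih => exact reach_nil _ _ (reach_fresh _ _ ih)

lemma mem_A {r : ℝ} : r ∈ A (sq (s0 X)) ↔ ∃ s : ℕ × List X × ℕ, Reach s ∧ val s = r := by
  constructor
  · rintro ⟨n, rfl⟩; exact ⟨_, ⟨n, rfl⟩, (a_sq _ _).symm⟩
  · rintro ⟨_, ⟨n, rfl⟩, rfl⟩; exact ⟨n, a_sq _ _⟩

lemma A_wf [WellFoundedLT X] : (A (sq (s0 X))).IsWF := by
  refine (wf_union (fun _ => Sv (fun _ : X => True)) ?_ (fun _ => Sv_wf _)).mono ?_
  · rintro m _ ⟨u, i, _, _, rfl⟩; exact val01 _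
  · intro r hr
    obtain ⟨⟨j, u, i⟩, hs, rfl⟩ := mem_A.mp hr
    exact Set.mem_iUnion.mpr ⟨j, _, ⟨u, i, reach_dec hs, fun _ _ => trivial, rfl⟩,
      (val_run _ _).symm⟩

noncomputable def Ph : List X → ℝ → ℝ
  | [], x => x
  | k :: u, x => ph (Encodable.encode k) (Ph u x)

omit [LinearOrder X] in
lemma Ph_mono (u : List X) : StrictMono (Ph u) := by
  induction u with
  | nil => exact fun _ _ h => h
  | cons k u ih => exact fun _ _ h => ph_mono _ (ih h)

omit [LinearOrder X] in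
lemma Ph_snoc (u : List X) (k : X) (x : ℝ) :
    Ph (u ++ [k]) x = Ph u (ph (Encodable.encode k) x) := by
  induction u with
  | nil => rfl
  | cons j u ih => simp only [List.cons_append, Ph, ih]

lemma val_fresh (u : List X) (i : ℕ) :
    val (fresh (u, i)) = Ph u (val (fresh (([] : List X), i))) := by
  induction u with
  | nil => rfl
  | cons k u ih => rw [Ph, ← ih]; exact val_run _ _

lemma above (u : List X) (hu : u.Pairwise (· > ·)) (k : X) :
    ∃ r ∈ A (sq (s0 X)), Ph (u ++ [k]) 1 ≤ r ∧ r < Ph u 1 := by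
  obtain ⟨i, hi, ht⟩ := tt_surj u hu (Encodable.encode k)
  have h1 : Reach (fresh (u, i + 1)) := by
    have := reach_fresh _ _ (reach_all (X := X) i)
    rwa [ht] at this
  refine ⟨_, mem_A.mpr ⟨_, h1, rfl⟩, ?_, ?_⟩
  · rw [val_fresh, Ph_snoc]
    apply (Ph_mono u).monotone
    rw [show fresh (([] : List X), i + 1) = (i + 1, tt (i + 1), i + 1 + 1) from rfl, val_run]
    exact ph_le (by omega) (val01 _).1
  · rw [val_fresh]
    apply Ph_mono u
    rw [show fresh (([] : List X), i + 1) = (i + 1, tt (i + 1), i + 1 + 1) from rfl, val_run]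
    exact ph_lt_one _ (val01 _).2

lemma lower [WellFoundedLT X] [IsWellOrder (A (sq (s0 X))) (· < ·)] (k : X) :
    ∀ u : List X, (u ++ [k]).Pairwise (· > ·) → ∀ z : A (sq (s0 X)), Ph (u ++ [k]) 1 ≤ z.1 →
      typein (α := X) (· < ·) k ≤ typein (α := A (sq (s0 X))) (· < ·) z := by
  induction k using WellFoundedLT.induction with
  | ind k ih =>
    intro u hu z hz
    apply le_of_forall_lt
    intro o ho
    obtain ⟨j, rfl⟩ := typein_surj (α := X) (· < ·) (ho.trans (typein_lt_type _ k))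
    have hjk : j < k := (typein_lt_typein (α := X) (· < ·)).mp ho
    obtain ⟨r, hr, h1, h2⟩ := above (u ++ [k]) hu j
    refine (ih j hjk (u ++ [k]) ?_ ⟨r, hr⟩ h1).trans_lt ?_
    · rw [List.pairwise_append] at hu ⊢
      refine ⟨List.pairwise_append.mpr hu, by simp, ?_⟩
      intro x hx y hy
      have : y = j := by simpa using hy
      subst this
      rcases List.mem_append.mp hx with hx | hx
      · exact hjk.trans (hu.2.2 x hx k (by simp))
      · have : x = k := by simpa using hx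
        exact this ▸ hjk
    · rw [typein_lt_typein]
      exact (show r < z.1 from lt_of_lt_of_le h2 hz)

end

theorem result (d : Ordinal.{0}) (hd : d < ω₁) :
    ∃ b : ℕ → Fin 2, ∃ _ : IsWellOrder (A b) (· < ·), d ≤ Ordinal.type (α := A b) (· < ·) := by
  have hc : Countable d.ToType := by
    rw [← Cardinal.mk_le_aleph0_iff, Cardinal.mk_toType, ← Order.lt_succ_iff,
      Cardinal.succ_aleph0, ← Cardinal.lt_ord, Cardinal.ord_aleph]
    exact hd
  let _ : Encodable d.ToType := Encodable.ofCountable _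
  have hw : WellFoundedLT (A (sq (s0 d.ToType))) := ⟨A_wf⟩
  refine ⟨sq (s0 d.ToType), inferInstance, ?_⟩
  apply le_of_forall_lt
  intro o ho
  obtain ⟨k, rfl⟩ := typein_surj (α := d.ToType) (· < ·) (by rwa [type_toType])
  obtain ⟨r, hr, h1, _⟩ := above ([] : List d.ToType) (by simp) k
  exact (lower k [] (by simp) ⟨r, hr⟩ h1).trans_lt (typein_lt_type _ _)

end Pool.Agent.Results.MP_c20855_lc.Unbounded
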